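import Pool.Agent.Q215.SPN.Res0
import Pool.Agent.Q215.SPN.Meas
import Pool.Agent.Q215.SPN.All

/-!
# The span set of simple random walk converges in law to the span set of Brownian motion

Proof. Donsker's theorem for bounded Lipschitz functionals of the piecewise linear walk path (comparison with the path
through `m` block sums, a fourth moment maximal inequality, Lévy's continuity theorem for the block sums); the span set,
as a function of the path, is continuous in the Hausdorff metric at every path for which no maximum over a rational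
interval equals a minimum over a disjoint rational interval, which holds almost surely for Brownian motion; the rescaled
span set of the walk is within `2/N` of the span set of the walk path.
-/

set_option autoImplicit false

namespace Pool.Agent.Results.MP_52e894_pr.SpanSetInvariance

open Filter Topology Set MeasureTheory ProbabilityTheory TopologicalSpace
open scoped NNReal unitInterval

open Classical in
/-- a subset of `[0,1]` as an element of the space `NonemptyCompacts I` of the nonempty compact subsets of `[0,1]` with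
the Hausdorff metric (junk value `⊤` if the set is empty or not compact) -/
noncomputable def toK (A : Set I) : NonemptyCompacts I :=
  if h : IsCompact A ∧ A.Nonempty then ⟨⟨A, h.1⟩, h.2⟩ else ⊤

/-- the span set `{t - s : 0 ≤ s ≤ t ≤ 1, b s = b t}` of the path `b` on `[0,1]` -/
def brownianSpans (b : ℝ≥0 → ℝ) : Set I :=
  {x | ∃ s t : ℝ≥0, s ≤ t ∧ t ≤ 1 ∧ b s = b t ∧ (x : ℝ) = t - s}

/-- the set `(1/N) {k - l : 0 ≤ l ≤ k ≤ N, RW_k = RW_l}` for the walk `RW_k = x 0 + ... + x (k - 1)` -/
def walkSpans (N : ℕ) (x : ℕ → ℝ) : Set I :=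
  {y | ∃ l k : ℕ, l ≤ k ∧ k ≤ N ∧ ∑ i ∈ Finset.range k, x i = ∑ i ∈ Finset.range l, x i ∧
    (y : ℝ) = ((k : ℝ) - l) / N}

/-- Let `B` be a standard Brownian motion and `ξ 0, ξ 1, ...` independent signs. (1), (2) The span sets are nonempty
compact (almost surely, resp. always), and random elements of the space of nonempty compact subsets of `[0,1]` with its
Borel sets. (3) The rescaled span sets of the walk converge in distribution to the span set of `B`. -/
theorem result {Ω Ω' : Type} [MeasurableSpace Ω] (P : Measure Ω) (B : ℝ≥0 → Ω → ℝ)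
    (hB : IsBrownianReal B P) [MeasurableSpace Ω'] (P' : Measure Ω') [IsProbabilityMeasure P']
    (ξ : ℕ → Ω' → ℝ) (hm : ∀ i, Measurable (ξ i)) (hind : iIndepFun ξ P')
    (h1 : ∀ i, P' {ω | ξ i ω = 1} = 1 / 2) (h2 : ∀ i, P' {ω | ξ i ω = -1} = 1 / 2) :
    ((∀ᵐ ω ∂P, IsCompact (brownianSpans fun t => B t ω) ∧ (brownianSpans fun t => B t ω).Nonempty) ∧
      @AEMeasurable Ω (NonemptyCompacts I) (borel _) _ (fun ω => toK (brownianSpans fun t => B t ω)) P) ∧
    (∀ N : ℕ, (∀ ω, IsCompact (walkSpans N fun i => ξ i ω) ∧ (walkSpans N fun i => ξ i ω).Nonempty) ∧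
      @AEMeasurable Ω' (NonemptyCompacts I) (borel _) _ (fun ω => toK (walkSpans N fun i => ξ i ω)) P') ∧
    ∀ F : NonemptyCompacts I → ℝ, Continuous F →
      Tendsto (fun N : ℕ => ∫ ω, F (toK (walkSpans N fun i => ξ i ω)) ∂P') atTop
        (𝓝 (∫ ω, F (toK (brownianSpans fun t => B t ω)) ∂P)) := by
  have hcont : ∀ᵐ ω ∂P, (brownianSpans fun t => B t ω) =
      Pool.Agent.Q215.SPN.spanSet (Pool.Agent.Q215.SPN.rst fun t => B t ω) :=
    hB.cont.mono fun ω hω => Pool.Agent.Q215.SPN.Res0.brownianSpans_eq _ hω
  have hfin := Pool.Agent.Q215.SPN.All.final P B hB P' ξ hm hind h1 h2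
  have hF1 : ∀ F : NonemptyCompacts I → ℝ, Continuous F →
      AEStronglyMeasurable (fun ω => F (toK (brownianSpans fun t => B t ω))) P := by
    intro F hF
    refine (hfin F hF).1.congr ?_
    filter_upwards [hcont] with ω hω
    rw [hω]
    rfl
  refine ⟨⟨?_, Pool.Agent.Q215.SPN.Meas.aem P _ hF1⟩, fun N => ⟨fun ω => ?_, ?_⟩, fun F hF => ?_⟩
  · filter_upwards [hcont] with ω hω
    rw [hω]
    exact Pool.Agent.Q215.SPN.All.compact _
  · exact Pool.Agent.Q215.SPN.All.rwCompact N _
  · exact Pool.Agent.Q215.SPN.Meas.aem P' _ fun F hF => (hfin F hF).2.1 N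
  · have e : ∫ ω, F (toK (brownianSpans fun t => B t ω)) ∂P =
        ∫ ω, F (Pool.Agent.Q215.SPN.toK
          (Pool.Agent.Q215.SPN.spanSet (Pool.Agent.Q215.SPN.rst fun t => B t ω))) ∂P := by
      refine integral_congr_ae ?_
      filter_upwards [hcont] with ω hω
      rw [hω]
      rfl
    rw [e]
    exact (hfin F hF).2.2

end Pool.Agent.Results.MP_52e894_pr.SpanSetInvariance
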